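import Mathlib

/-!
# Counting tuples (unit count block, 9b2bac)
-/

namespace MP9b2bac.U

open Finset

/-- Tuples of positive integers with product at most `X`: at most `X ^ 2 * 2 ^ d`. -/
theorem card_tuples {ι : Type*} [Fintype ι] (X : ℝ) (S : Finset (ι → ℕ))
    (h1 : ∀ n ∈ S, ∀ j, 1 ≤ n j) (h2 : ∀ n ∈ S, ((∏ j, n j : ℕ) : ℝ) ≤ X) :
    (S.card : ℝ) ≤ X ^ 2 * 2 ^ Fintype.card ι := by
  classical
  set M : ℕ := S.sup fun n => univ.sup n with hM
  have hsub : S ⊆ Fintype.piFinset fun _ : ι => Ioo 0 (M + 1) := by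
    intro n hn
    rw [Fintype.mem_piFinset]
    intro j
    rw [mem_Ioo]
    refine ⟨h1 n hn j, Nat.lt_succ_of_le ?_⟩
    exact (le_sup (f := n) (mem_univ j)).trans (le_sup (f := fun n => univ.sup n) hn)
  have hw : ∀ n ∈ S, (1 : ℝ) ≤ X ^ 2 * ∏ j, ((n j : ℝ) ^ 2)⁻¹ := by
    intro n hn
    have hp : (0 : ℝ) < ∏ j, (n j : ℝ) :=
      prod_pos fun j _ => by exact_mod_cast h1 n hn j
    have h3 : ∏ j, (n j : ℝ) ≤ X := by simpa using h2 n hn
    rw [prod_inv_distrib, prod_pow, ← div_eq_mul_inv, le_div_iff₀ (by positivity), one_mul]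
    exact pow_le_pow_left₀ hp.le h3 2
  calc (S.card : ℝ) = ∑ _n ∈ S, (1 : ℝ) := by simp
    _ ≤ ∑ n ∈ S, X ^ 2 * ∏ j, ((n j : ℝ) ^ 2)⁻¹ := sum_le_sum hw
    _ ≤ ∑ n ∈ Fintype.piFinset fun _ : ι => Ioo 0 (M + 1), X ^ 2 * ∏ j, ((n j : ℝ) ^ 2)⁻¹ :=
        sum_le_sum_of_subset_of_nonneg hsub fun n _ _ => by positivity
    _ = X ^ 2 * ∏ _j : ι, ∑ k ∈ Ioo 0 (M + 1), ((k : ℝ) ^ 2)⁻¹ := by
        rw [← mul_sum, prod_univ_sum]
    _ ≤ X ^ 2 * ∏ _j : ι, (2 : ℝ) := by
        refine mul_le_mul_of_nonneg_left (prod_le_prod (fun j _ => by positivity) fun j _ => ?_)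
          (by positivity)
        simpa using sum_Ioo_inv_sq_le (α := ℝ) 0 (M + 1)
    _ = X ^ 2 * 2 ^ Fintype.card ι := by simp

/-- Tuples of natural numbers with sum at most `D`: at most `4 ^ D * 2 ^ d`. -/
theorem card_simplex {ι : Type*} [Fintype ι] (D : ℕ) (S : Finset (ι → ℕ))
    (h : ∀ k ∈ S, ∑ j, k j ≤ D) : (S.card : ℝ) ≤ 4 ^ D * 2 ^ Fintype.card ι := by
  classical
  have hinj : Function.Injective fun (k : ι → ℕ) (j : ι) => 2 ^ k j := by
    intro k k' hk
    funext j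
    exact Nat.pow_right_injective le_rfl (congrFun hk j)
  have := card_tuples ((2 : ℝ) ^ D) (S.image fun k j => 2 ^ k j) ?_ ?_
  · rw [card_image_of_injective _ hinj, ← pow_mul, mul_comm D 2, pow_mul] at this
    norm_num at this
    exact this
  · intro n hn j
    obtain ⟨k, -, rfl⟩ := mem_image.1 hn
    exact Nat.one_le_two_pow
  · intro n hn
    obtain ⟨k, hk, rfl⟩ := mem_image.1 hn
    rw [prod_pow_eq_pow_sum]
    exact_mod_cast Nat.pow_le_pow_right two_pos (h k hk)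

/-- Pigeonhole: some fibre is at least as large as the average. -/
theorem exists_fiber {α β : Type*} [DecidableEq β] (s : Finset α) (hs : s.Nonempty) (f : α → β) :
    ∃ a ∈ s, s.card ≤ (s.filter fun x => f x = f a).card * (s.image f).card := by
  obtain ⟨a, ha, hmax⟩ := exists_max_image s (fun a => (s.filter fun x => f x = f a).card) hs
  refine ⟨a, ha, card_le_mul_card_image s _ fun b hb => ?_⟩
  obtain ⟨x, hx, rfl⟩ := mem_image.1 hb
  exact hmax x hx

/-- A map whose fibres have at most `d` elements is separated by an index in `Fin d`. -/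
theorem exists_index {α β : Type*} (T : Set α) (f : α → β) (d : ℕ) (hd : 0 < d)
    (h : ∀ b, ∀ s : Finset α, (∀ a ∈ s, a ∈ T ∧ f a = b) → s.card ≤ d) :
    ∃ j : α → Fin d, ∀ a ∈ T, ∀ a' ∈ T, f a = f a' → j a = j a' → a = a' := by
  classical
  have key : ∀ b, ∃ e : α → Fin d, Set.InjOn e {a | a ∈ T ∧ f a = b} := by
    intro b
    have hfin : {a | a ∈ T ∧ f a = b}.Finite := by
      by_contra hinf
      obtain ⟨s, hs, hc⟩ := Set.Infinite.exists_subset_card_eq hinf (d + 1)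
      have := h b s fun a ha => hs ha
      omega
    have hc : {a | a ∈ T ∧ f a = b}.encard ≤ (Set.univ : Set (Fin d)).encard := by
      rw [hfin.encard_eq_coe_toFinset_card, Set.encard_univ, ENat.card_eq_coe_fintype_card,
        Fintype.card_fin]
      exact_mod_cast h b _ fun a ha => hfin.mem_toFinset.1 ha
    haveI : Nonempty (Fin d) := ⟨⟨0, hd⟩⟩
    obtain ⟨e, -, he⟩ := hfin.exists_injOn_of_encard_le hc
    exact ⟨e, he⟩
  choose e he using key
  refine ⟨fun a => e (f a) a, fun a ha a' ha' hf hj => ?_⟩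
  refine he (f a) ⟨ha, rfl⟩ ⟨ha', hf.symm⟩ ?_
  simpa [hf] using hj

end MP9b2bac.U
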