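import Mathlib
import Pool.Agent.MP_9b2bac_nt.U.Comb

/-!
# Ideals of bounded norm (unit count block, 9b2bac)

At most `X ^ 2 * 2 ^ d` nonzero ideals of norm at most `X` in a number field of degree `d`.
-/

namespace MP9b2bac.U

open Finset NumberField UniqueFactorizationMonoid

variable {K : Type*} [Field K] [NumberField K]

theorem card_primes_above (b : ℕ) (s : Finset (Ideal (𝓞 K)))
    (hs : ∀ P ∈ s, Prime P ∧ Ideal.absNorm (P.under ℤ) = b) : s.card ≤ Module.finrank ℚ K := by
  classical
  rcases s.eq_empty_or_nonempty with rfl | ⟨P₀, hP₀⟩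
  · simp
  have hb : b.Prime := by
    obtain ⟨h1, h2⟩ := hs P₀ hP₀
    haveI : P₀.IsPrime := Ideal.isPrime_of_prime h1
    haveI : NeZero P₀ := ⟨h1.ne_zero⟩
    rw [← h2]
    exact Nat.absNorm_under_prime P₀
  haveI : Fact b.Prime := ⟨hb⟩
  have hp0 : Ideal.span {(b : ℤ)} ≠ ⊥ := by
    simpa using hb.ne_zero
  refine le_trans (card_le_card ?_)
    (Ideal.card_primesOverFinset_le_finrank (𝓞 K) ℚ K (p := Ideal.span {(b : ℤ)}) hp0)
  intro P hP
  obtain ⟨h1, h2⟩ := hs P hP
  rw [IsDedekindDomain.mem_primesOverFinset_iff hp0]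
  refine ⟨Ideal.isPrime_of_prime h1, ?_⟩
  rw [← h2]
  exact Int.liesOver_span_absNorm P

/-- At most `X ^ 2 * 2 ^ d` nonzero ideals of norm at most `X`. -/
theorem card_ideals (X : ℝ) (S : Finset (Ideal (𝓞 K)))
    (h0 : ∀ I ∈ S, I ≠ ⊥) (hX : ∀ I ∈ S, (Ideal.absNorm I : ℝ) ≤ X) :
    (S.card : ℝ) ≤ X ^ 2 * 2 ^ Module.finrank ℚ K := by
  classical
  set q : Ideal (𝓞 K) → ℕ := fun P => Ideal.absNorm (P.under ℤ) with hq
  obtain ⟨j, hj⟩ := exists_index {P : Ideal (𝓞 K) | Prime P} q (Module.finrank ℚ K)
    Module.finrank_pos (fun b s hs => card_primes_above b s hs)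
  have hqp : ∀ P : Ideal (𝓞 K), Prime P → (q P).Prime := by
    intro P h1
    haveI : P.IsPrime := Ideal.isPrime_of_prime h1
    haveI : NeZero P := ⟨h1.ne_zero⟩
    exact Nat.absNorm_under_prime P
  set n : Ideal (𝓞 K) → Fin (Module.finrank ℚ K) → ℕ := fun I i =>
    (((normalizedFactors I).filter fun P => j P = i).map q).prod with hn
  have hpr : ∀ (I : Ideal (𝓞 K)) i, ∀ x ∈ ((normalizedFactors I).filter fun P => j P = i).map q,
      x.Prime := by
    intro I i x hx
    obtain ⟨P, hP, rfl⟩ := Multiset.mem_map.1 hx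
    exact hqp P (prime_of_normalized_factor P (Multiset.mem_filter.1 hP).1)
  have hcount : ∀ (I P : Ideal (𝓞 K)), Prime P → (normalizedFactors I).count P =
      (((normalizedFactors I).filter fun Q => j Q = j P).map q).count (q P) := by
    intro I P hP
    rw [Multiset.count_map, Multiset.filter_filter, Multiset.count_eq_card_filter_eq]
    congr 1
    refine Multiset.filter_congr fun Q hQ => ⟨?_, ?_⟩
    · rintro rfl
      exact ⟨rfl, rfl⟩
    · rintro ⟨h1, h2⟩
      exact hj P hP Q (prime_of_normalized_factor Q hQ) h1 h2.symm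
  have hinj : Set.InjOn n S := by
    intro I hI I' hI' h
    have hF : normalizedFactors I = normalizedFactors I' := by
      ext P
      by_cases hP : Prime P
      · rw [hcount I P hP, hcount I' P hP]
        congr 1
        have h1 := congrFun h (j P)
        have h2 := prime_factors_unique (fun x hx => (hpr I (j P) x hx).prime)
          (fun x hx => (hpr I' (j P) x hx).prime) (Associated.of_eq h1)
        rwa [associated_eq_eq, Multiset.rel_eq] at h2
      · rw [Multiset.count_eq_zero.2 fun h => hP (prime_of_normalized_factor P h),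
          Multiset.count_eq_zero.2 fun h => hP (prime_of_normalized_factor P h)]
    rw [← Ideal.prod_normalizedFactors_eq_self (h0 I hI), hF,
      Ideal.prod_normalizedFactors_eq_self (h0 I' hI')]
  have hprod : ∀ F : Multiset (Ideal (𝓞 K)),
      ∏ i, ((F.filter fun P => j P = i).map q).prod = (F.map q).prod := by
    intro F
    induction F using Multiset.induction_on with
    | empty => simp
    | cons P F ih =>
      have : ∀ i, (((P ::ₘ F).filter fun Q => j Q = i).map q).prod =
          (if j P = i then q P else 1) * ((F.filter fun Q => j Q = i).map q).prod := by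
        intro i
        by_cases h : j P = i
        · rw [Multiset.filter_cons_of_pos _ (p := fun Q => j Q = i) h]
          simp [h]
        · rw [Multiset.filter_cons_of_neg _ (p := fun Q => j Q = i) h]
          simp [h]
      simp only [this, prod_mul_distrib, ih, prod_ite_eq, mem_univ, if_true, Multiset.map_cons,
        Multiset.prod_cons]
  have := card_tuples X (S.image n) ?_ ?_
  · rwa [card_image_of_injOn hinj, Fintype.card_fin] at this
  · intro m hm i
    obtain ⟨I, -, rfl⟩ := mem_image.1 hm
    exact Multiset.one_le_prod_of_one_le fun x hx => (hpr I i x hx).one_le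
  · intro m hm
    obtain ⟨I, hI, rfl⟩ := mem_image.1 hm
    refine le_trans ?_ (hX I hI)
    rw [hprod]
    have h1 : Ideal.absNorm I = ((normalizedFactors I).map Ideal.absNorm).prod := by
      rw [← map_multiset_prod, Ideal.prod_normalizedFactors_eq_self (h0 I hI)]
    rw [h1]
    exact_mod_cast Multiset.prod_map_le_prod_map _ _ fun P hP =>
      Nat.le_of_dvd (Nat.pos_of_ne_zero (by
        rw [Ne, Ideal.absNorm_eq_zero_iff]
        exact (prime_of_normalized_factor P hP).ne_zero)) (Int.absNorm_under_dvd_absNorm P)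

end MP9b2bac.U
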