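import Mathlib

/-!
# Minkowski's theorem in logarithmic form (unit count block, 9b2bac)
-/

namespace MP9b2bac.U

open Finset NumberField NumberField.InfinitePlace NumberField.mixedEmbedding
open scoped NNReal ENNReal

variable {K : Type*} [Field K] [NumberField K]

theorem exists_lt (f : InfinitePlace K → ℝ) (hf : ∀ w, 0 < f w)
    (h : |(discr K : ℝ)| < (∏ w, f w ^ mult w) ^ 2) :
    ∃ a : 𝓞 K, a ≠ 0 ∧ ∀ w : InfinitePlace K, w a < f w := by
  classical
  let g : InfinitePlace K → ℝ≥0 := fun w => ⟨f w, (hf w).le⟩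
  refine exists_ne_zero_mem_ringOfIntegers_lt K (f := g) ?_
  rw [convexBodyLT_volume, minkowskiBound, volume_fundamentalDomain_fractionalIdealLatticeBasis,
    Units.val_one, FractionalIdeal.absNorm_one, Rat.cast_one, ENNReal.ofReal_one, one_mul,
    mixedEmbedding.finrank, volume_fundamentalDomain_latticeBasis,
    ← card_add_two_mul_card_eq_rank]
  have h1 : NNReal.sqrt ‖discr K‖₊ < ∏ w, g w ^ mult w := by
    rw [← NNReal.sqrt_sq (∏ w, g w ^ mult w), NNReal.sqrt_lt_sqrt, ← NNReal.coe_lt_coe]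
    push_cast
    rw [Int.norm_eq_abs]
    exact h
  have h2 : (2 : ℝ≥0)⁻¹ ^ nrComplexPlaces K * NNReal.sqrt ‖discr K‖₊ *
      2 ^ (nrRealPlaces K + 2 * nrComplexPlaces K) <
      convexBodyLTFactor K * ∏ w, g w ^ mult w := by
    have e : (2 : ℝ≥0)⁻¹ ^ nrComplexPlaces K * NNReal.sqrt ‖discr K‖₊ *
        2 ^ (nrRealPlaces K + 2 * nrComplexPlaces K) =
        2 ^ nrRealPlaces K * 2 ^ nrComplexPlaces K * NNReal.sqrt ‖discr K‖₊ := by
      rw [two_mul, pow_add, pow_add, inv_pow]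
      field_simp
    rw [e]
    refine mul_lt_mul_of_le_of_lt_of_nonneg_of_pos ?_ h1 (by positivity) ?_
    · have : (2 : ℝ≥0) ≤ NNReal.pi := Real.two_le_pi
      exact mul_le_mul_right (pow_le_pow_left₀ (by positivity) this _) _
    · exact pos_iff_ne_zero.2 (convexBodyLTFactor_ne_zero K)
  have h3 := ENNReal.coe_lt_coe.2 h2
  rw [ENNReal.coe_mul, ENNReal.coe_mul, ENNReal.coe_mul, ENNReal.coe_pow, ENNReal.coe_pow,
    ENNReal.coe_inv two_ne_zero] at h3
  exact h3

/-- For centres `c` with `∑ mult w * c w = 0` there is a nonzero integer `a` with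
`log (w a) < log B + c w` for all `w`. -/
theorem exists_log_lt (B : ℝ) (hB : 0 < B) (h : |(discr K : ℝ)| < B ^ (2 * Module.finrank ℚ K))
    (c : InfinitePlace K → ℝ) (hc : ∑ w, (mult w : ℝ) * c w = 0) :
    ∃ a : 𝓞 K, a ≠ 0 ∧ ∀ w : InfinitePlace K, Real.log (w a) < Real.log B + c w := by
  obtain ⟨a, ha, hw⟩ := exists_lt (K := K) (fun w => B * Real.exp (c w)) (fun w => by positivity)
    (by
      have : ∏ w : InfinitePlace K, (B * Real.exp (c w)) ^ mult w = B ^ Module.finrank ℚ K := by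
        simp only [mul_pow, prod_mul_distrib, prod_pow_eq_pow_sum, sum_mult_eq,
          ← Real.exp_nat_mul, ← Real.exp_sum, hc, Real.exp_zero, mul_one]
      rwa [this, ← pow_mul, mul_comm])
  refine ⟨a, ha, fun w => ?_⟩
  have hp : 0 < w (a : K) := pos_iff.2 (RingOfIntegers.coe_ne_zero_iff.2 ha)
  have := Real.log_lt_log hp (hw w)
  rwa [Real.log_mul hB.ne' (Real.exp_pos _).ne', Real.log_exp] at this

/-- The weighted sum of the logarithms is the logarithm of the norm of the ideal. -/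
theorem sum_log_eq (a : 𝓞 K) (ha : a ≠ 0) :
    ∑ w : InfinitePlace K, (mult w : ℝ) * Real.log (w a) =
      Real.log (Ideal.absNorm (Ideal.span {a})) := by
  have hp : ∀ w : InfinitePlace K, 0 < w (a : K) := fun w =>
    pos_iff.2 (RingOfIntegers.coe_ne_zero_iff.2 ha)
  have h1 := prod_eq_abs_norm (a : K)
  rw [Ideal.absNorm_span_singleton, Nat.cast_natAbs, Int.cast_abs]
  have h2 : ((Algebra.norm ℤ a : ℤ) : ℝ) = ((Algebra.norm ℚ (a : K) : ℚ) : ℝ) := by
    rw [← Algebra.coe_norm_int]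
    simp
  rw [h2, ← Rat.cast_abs, ← h1, Real.log_prod fun w _ => (pow_pos (hp w) _).ne']
  simp only [Real.log_pow]

theorem sum_log_nonneg (a : 𝓞 K) (ha : a ≠ 0) :
    0 ≤ ∑ w : InfinitePlace K, (mult w : ℝ) * Real.log (w a) := by
  rw [sum_log_eq a ha]
  exact Real.log_natCast_nonneg _

end MP9b2bac.U
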